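import Mathlib

/-!
# MP_8a0948, Q1: the inequality holds only if there are no `ε`-strong `Q`-measures at all
-/

set_option autoImplicit false

noncomputable section

open Filter Topology BoundedContinuousFunction

namespace Pool.Agent.Results.MP_8a0948_an.Equivalence

/-! ### Definitions -/

/-- The indicator function of a set of natural numbers, as an element of `ℓ^∞`. -/
def ind (A : Set ℕ) : ℕ →ᵇ ℝ :=
  BoundedContinuousFunction.ofNormedAddCommGroup (A.indicator fun _ => (1 : ℝ))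
    continuous_of_discreteTopology 1 fun n => by
      by_cases h : n ∈ A
      · rw [Set.indicator_of_mem h, norm_one]
      · rw [Set.indicator_of_notMem h, norm_zero]; exact zero_le_one

/-- Measures on `P(ω)` with values in `[0,1]` vanishing on finite sets. Finitely additive measures are
identified with functionals `m` on `ℓ^∞`; the value on a set `A` is `m (ind A)`. -/
def IsMeasure (m : StrongDual ℝ (ℕ →ᵇ ℝ)) : Prop :=
  (∀ A : Set ℕ, 0 ≤ m (ind A) ∧ m (ind A) ≤ 1) ∧ ∀ A : Set ℕ, A.Finite → m (ind A) = 0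

/-- A partition of `ω` into finite sets. -/
def IsPartition (P : ℕ → Set ℕ) : Prop :=
  (∀ n, (P n).Finite ∧ (P n).Nonempty) ∧ (∀ i j, i ≠ j → Disjoint (P i) (P j)) ∧
    ⋃ n, P n = Set.univ

/-- A selector of a family of sets. -/
def IsSelector (P : ℕ → Set ℕ) (A : Set ℕ) : Prop := ∀ n, (A ∩ P n).Subsingleton

/-- `ε`-strong `Q`-measures. -/
def StrongQ (ε : ℝ) (m : StrongDual ℝ (ℕ →ᵇ ℝ)) : Prop :=
  IsMeasure m ∧ ∀ P, IsPartition P → ∃ A, IsSelector P A ∧ ε ≤ m (ind A)

section Lim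

variable {X : Type} [NormedAddCommGroup X] [NormedSpace ℝ X]

/-- The bounded sequence `(f (x_n))_n`. -/
def along (x : ℕ → X) (hx : ∀ n, ‖x n‖ ≤ 1) (f : StrongDual ℝ X) : ℕ →ᵇ ℝ :=
  BoundedContinuousFunction.ofNormedAddCommGroup (fun n => f (x n))
    continuous_of_discreteTopology ‖f‖ fun n =>
      (f.le_opNorm (x n)).trans (mul_le_of_le_one_right (norm_nonneg f) (hx n))

/-- The bidual. -/
def Bidual (X : Type) [NormedAddCommGroup X] [NormedSpace ℝ X] : Type :=
  StrongDual ℝ (StrongDual ℝ X)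

instance : NormedAddCommGroup (Bidual X) :=
  inferInstanceAs (NormedAddCommGroup (StrongDual ℝ (StrongDual ℝ X)))

/-- The canonical embedding into the bidual. -/
def emb (z : X) : Bidual X :=
  LinearMap.mkContinuous
    { toFun := fun f => f z
      map_add' := fun _ _ => rfl
      map_smul' := fun _ _ => rfl } ‖z‖ fun f => by
      rw [mul_comm]
      exact f.le_opNorm z

/-- `μ-lim (x_n) = T**(μ)`, the element of the bidual given by `f ↦ ∫ f(x_n) dμ(n)`. -/
def mlim (m : StrongDual ℝ (ℕ →ᵇ ℝ)) (x : ℕ → X) (hx : ∀ n, ‖x n‖ ≤ 1) : Bidual X :=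
  LinearMap.mkContinuous
    { toFun := fun f => m (along x hx f)
      map_add' := fun f g => by
        rw [← map_add]; rfl
      map_smul' := fun r f => by
        rw [← map_smul]; rfl } ‖m‖ fun f => by
      refine (m.le_opNorm _).trans (mul_le_mul_of_nonneg_left ?_ (norm_nonneg m))
      exact (BoundedContinuousFunction.norm_le (norm_nonneg f)).mpr fun n =>
        (f.le_opNorm (x n)).trans (mul_le_of_le_one_right (norm_nonneg f) (hx n))

/-- `L`-orthogonal sequences. -/
def LOrthogonal (x : ℕ → X) : Prop :=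
  ∀ z : X, Tendsto (fun n => ‖z + x n‖) atTop (𝓝 (1 + ‖z‖))

end Lim

/-- The inequality of the question, for all data. -/
def Inequality : Prop :=
  ∀ ε : ℝ, 0 < ε → ∀ m : StrongDual ℝ (ℕ →ᵇ ℝ), StrongQ ε m →
    ∀ (X : Type) [NormedAddCommGroup X] [NormedSpace ℝ X] [CompleteSpace X]
      (x : ℕ → X) (hx : ∀ n, ‖x n‖ ≤ 1), LOrthogonal x →
        ∀ z : X, ‖z‖ + ε * ‖mlim m x hx‖ ≤ ‖emb z + mlim m x hx‖

/-- `Q`-points: free ultrafilters containing a selector of every partition into finite sets. -/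
def IsQPoint (U : Ultrafilter ℕ) : Prop :=
  (U : Filter ℕ) ≤ cofinite ∧ ∀ P, IsPartition P → ∃ A ∈ U, IsSelector P A

/-! ### Limits along ultrafilters -/

theorem exists_ultralim {Z : Type*} [NormedAddCommGroup Z] [NormedSpace ℝ Z]
    (U : Ultrafilter ℕ) (φ : ℕ → StrongDual ℝ Z) {M : ℝ} (hφ : ∀ n, ‖φ n‖ ≤ M) :
    ∃ ζ : StrongDual ℝ Z, ∀ z, Tendsto (fun n => φ n z) (U : Filter ℕ) (𝓝 (ζ z)) := by
  have hcpt := WeakDual.isCompact_closedBall (𝕜 := ℝ) (0 : StrongDual ℝ Z) M
  obtain ⟨z, _, hlim⟩ := hcpt.ultrafilter_le_nhds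
    (U.map fun n => StrongDual.toWeakDual (φ n)) (by
      rw [Filter.le_principal_iff]
      refine Filter.mem_map.mpr (Filter.Eventually.of_forall fun n => ?_)
      exact (mem_closedBall_zero_iff (E := StrongDual ℝ Z)).mpr (hφ n))
  have hlim' : Tendsto (fun n => StrongDual.toWeakDual (φ n)) (U : Filter ℕ) (𝓝 z) := hlim
  exact ⟨WeakDual.toStrongDual z, fun y => ((WeakDual.eval_continuous y).tendsto _).comp hlim'⟩

theorem exists_ultrafunctional (U : Ultrafilter ℕ) :
    ∃ m : StrongDual ℝ (ℕ →ᵇ ℝ), ∀ b : ℕ →ᵇ ℝ, Tendsto (fun n => b n) (U : Filter ℕ) (𝓝 (m b)) := by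
  refine exists_ultralim U (fun n => BoundedContinuousFunction.evalCLM ℝ n) (M := 1) fun n => ?_
  refine ContinuousLinearMap.opNorm_le_bound _ zero_le_one fun b => ?_
  rw [one_mul]
  exact b.norm_coe_le_norm n

theorem ultra_nonneg {U : Ultrafilter ℕ} {m : StrongDual ℝ (ℕ →ᵇ ℝ)}
    (hm : ∀ b : ℕ →ᵇ ℝ, Tendsto (fun n => b n) (U : Filter ℕ) (𝓝 (m b))) (A : Set ℕ) :
    0 ≤ m (ind A) ∧ m (ind A) ≤ 1 := by
  refine ⟨ge_of_tendsto' (hm _) fun n => Set.indicator_nonneg (fun _ _ => zero_le_one) n,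
    le_of_tendsto' (hm _) fun n => ?_⟩
  show A.indicator (fun _ => (1 : ℝ)) n ≤ 1
  by_cases h : n ∈ A
  · rw [Set.indicator_of_mem h]
  · rw [Set.indicator_of_notMem h]; exact zero_le_one

theorem ultra_mem {U : Ultrafilter ℕ} {m : StrongDual ℝ (ℕ →ᵇ ℝ)}
    (hm : ∀ b : ℕ →ᵇ ℝ, Tendsto (fun n => b n) (U : Filter ℕ) (𝓝 (m b))) {A : Set ℕ}
    (hA : A ∈ U) : m (ind A) = 1 := by
  refine tendsto_nhds_unique (hm _) (tendsto_const_nhds.congr' ?_)
  filter_upwards [hA] with n hn
  show (1 : ℝ) = A.indicator (fun _ => (1 : ℝ)) n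
  rw [Set.indicator_of_mem hn]

theorem ultra_compl {U : Ultrafilter ℕ} {m : StrongDual ℝ (ℕ →ᵇ ℝ)}
    (hm : ∀ b : ℕ →ᵇ ℝ, Tendsto (fun n => b n) (U : Filter ℕ) (𝓝 (m b))) {A : Set ℕ}
    (hA : Aᶜ ∈ U) : m (ind A) = 0 := by
  refine tendsto_nhds_unique (hm _) (tendsto_const_nhds.congr' ?_)
  filter_upwards [hA] with n hn
  show (0 : ℝ) = A.indicator (fun _ => (1 : ℝ)) n
  rw [Set.indicator_of_notMem hn]

/-! ### The filter -/

/-- Sets whose complement meets the fibres of `Nat.sqrt` in boundedly many points. -/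
def bigFilter : Filter ℕ where
  sets := {A | ∃ N : ℕ, ∀ s : Finset ℕ, (∀ a ∈ s, a ∉ A) →
    (∀ a ∈ s, ∀ b ∈ s, Nat.sqrt a = Nat.sqrt b) → s.card ≤ N}
  univ_sets := ⟨0, fun s hs _ => by
    rw [Nat.le_zero, Finset.card_eq_zero, Finset.eq_empty_iff_forall_notMem]
    exact fun a ha => hs a ha (Set.mem_univ a)⟩
  sets_of_superset := by
    rintro A B ⟨N, hN⟩ hAB
    exact ⟨N, fun s hs hk => hN s (fun a ha h => hs a ha (hAB h)) hk⟩
  inter_sets := by
    classical
    rintro A B ⟨N, hN⟩ ⟨M, hM⟩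
    refine ⟨N + M, fun s hs hk => ?_⟩
    have h1 := hN (s.filter fun a => a ∉ A) (fun a ha => (Finset.mem_filter.mp ha).2)
      (fun a ha b hb => hk a (Finset.mem_filter.mp ha).1 b (Finset.mem_filter.mp hb).1)
    have h2 := hM (s.filter fun a => ¬ a ∉ A) (fun a ha h => by
        have h3 := (Finset.mem_filter.mp ha).2
        rw [not_not] at h3
        exact hs a (Finset.mem_filter.mp ha).1 ⟨h3, h⟩)
      (fun a ha b hb => hk a (Finset.mem_filter.mp ha).1 b (Finset.mem_filter.mp hb).1)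
    rw [← Finset.card_filter_add_card_filter_not (s := s) (fun a => a ∉ A)]
    exact add_le_add h1 h2

theorem bigFilter_neBot : bigFilter.NeBot := by
  constructor
  intro hbot
  obtain ⟨N, hN⟩ := Filter.empty_mem_iff_bot.mpr hbot
  have h := hN (Finset.Icc (N * N) (N * N + N)) (fun a _ => Set.notMem_empty a) (by
    have key : ∀ a ∈ Finset.Icc (N * N) (N * N + N), Nat.sqrt a = N := by
      intro a ha
      rw [Finset.mem_Icc] at ha
      refine (Nat.eq_sqrt.mpr ⟨ha.1, ?_⟩).symm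
      nlinarith [ha.2]
    intro a ha b hb
    rw [key a ha, key b hb])
  rw [Nat.card_Icc] at h
  omega

theorem bigFilter_le_cofinite : bigFilter ≤ cofinite := by
  intro A hA
  rw [Filter.mem_cofinite] at hA
  refine ⟨hA.toFinset.card, fun s hs _ => Finset.card_le_card fun a ha => ?_⟩
  rw [Set.Finite.mem_toFinset]
  exact hs a ha

/-! ### The space -/

/-- The compact space. -/
abbrev K : Type := Bool × ((k : ℕ) → Fin ((k + 1) ^ 2) × Bool)

/-- The sign. -/
def sg (b : Bool) : ℝ := if b then 1 else -1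

theorem abs_sg (b : Bool) : |sg b| = 1 := by cases b <;> simp [sg]

/-- The function `θ`. -/
def vv : C(K, ℝ) := ⟨fun p => sg p.1, by
  exact (continuous_of_discreteTopology (f := sg)).comp continuous_fst⟩

/-- The function defining `xx n`. -/
def gg (n : ℕ) (q : Bool × (Fin ((Nat.sqrt n + 1) ^ 2) × Bool)) : ℝ :=
  if (q.2.1 : ℕ) = n then sg q.2.2 else sg q.1

/-- The sequence. -/
def xx (n : ℕ) : C(K, ℝ) :=
  ⟨fun p => gg n (p.1, p.2 (Nat.sqrt n)),
    (continuous_of_discreteTopology (f := gg n)).comp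
      (continuous_fst.prodMk ((continuous_apply (Nat.sqrt n)).comp continuous_snd))⟩

theorem xx_apply (n : ℕ) (p : K) :
    xx n p = if ((p.2 (Nat.sqrt n)).1 : ℕ) = n then sg (p.2 (Nat.sqrt n)).2 else sg p.1 := rfl

theorem abs_xx (n : ℕ) (p : K) : |xx n p| = 1 := by
  rw [xx_apply]
  split_ifs <;> exact abs_sg _

theorem norm_xx_le (n : ℕ) : ‖xx n‖ ≤ 1 :=
  (ContinuousMap.norm_le _ zero_le_one).mpr fun p => (abs_xx n p).le

theorem norm_vv : ‖vv‖ = 1 := by
  refine le_antisymm ((ContinuousMap.norm_le _ zero_le_one).mpr fun p => (abs_sg _).le) ?_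
  have h := vv.norm_coe_le_norm ((true, fun k => (⟨0, by positivity⟩, true)) : K)
  have h2 : ‖vv ((true, fun k => (⟨0, by positivity⟩, true)) : K)‖ = 1 := by
    show ‖sg true‖ = 1
    exact abs_sg true
  rwa [h2] at h

theorem xx_orth : LOrthogonal xx := by
  intro z
  obtain ⟨p0, hp0⟩ : ∃ p0 : K, |z p0| = ‖z‖ := by
    have : Nonempty K := ⟨(true, fun k => (⟨0, by positivity⟩, true))⟩
    obtain ⟨p0, -, hp⟩ := isCompact_univ.exists_isMaxOn (Set.univ_nonempty (α := K))
      (z.continuous.abs.continuousOn)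
    refine ⟨p0, le_antisymm (z.norm_coe_le_norm p0) ?_⟩
    exact (ContinuousMap.norm_le _ (abs_nonneg _)).mpr fun p => hp (Set.mem_univ p)
  -- the sign of `z p0`
  obtain ⟨b, hb⟩ : ∃ b : Bool, |z p0 + sg b| = |z p0| + 1 := by
    rcases le_total 0 (z p0) with h | h
    · exact ⟨true, by
        simp only [sg, if_true]
        rw [abs_of_nonneg h, abs_of_nonneg (by linarith)]⟩
    · exact ⟨false, by
        simp only [sg]
        rw [abs_of_nonpos h, abs_of_nonpos (by simp; linarith)]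
        simp
        ring⟩
  let p : ℕ → K := fun n =>
    (p0.1, Function.update p0.2 (Nat.sqrt n) (⟨n, Nat.lt_succ_sqrt' n⟩, b))
  have hp : Tendsto p atTop (𝓝 p0) := by
    refine Tendsto.prodMk_nhds tendsto_const_nhds (tendsto_pi_nhds.mpr fun j => ?_)
    refine tendsto_const_nhds.congr' ?_
    filter_upwards [Filter.eventually_ge_atTop ((j + 1) * (j + 1))] with n hn
    have hne : j ≠ Nat.sqrt n := by
      have : j + 1 ≤ Nat.sqrt n := Nat.le_sqrt.mpr hn
      omega
    exact (Function.update_of_ne hne _ _).symm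
  have hval : ∀ n, xx n (p n) = sg b := fun n => by
    rw [xx_apply]
    show (if ((Function.update p0.2 (Nat.sqrt n) (⟨n, Nat.lt_succ_sqrt' n⟩, b)
      (Nat.sqrt n)).1 : ℕ) = n then sg (Function.update p0.2 (Nat.sqrt n)
        (⟨n, Nat.lt_succ_sqrt' n⟩, b) (Nat.sqrt n)).2 else sg p0.1) = sg b
    rw [Function.update_self, if_pos rfl]
  have hlow : Tendsto (fun n => |z (p n) + sg b|) atTop (𝓝 (1 + ‖z‖)) := by
    have h1 : Tendsto (fun n => |z (p n) + sg b|) atTop (𝓝 |z p0 + sg b|) :=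
      (((z.continuous.tendsto p0).comp hp).add_const (sg b)).abs
    rwa [hb, hp0, add_comm] at h1
  refine tendsto_of_tendsto_of_tendsto_of_le_of_le hlow tendsto_const_nhds (fun n => ?_)
    (fun n => ?_)
  · have := (z + xx n).norm_coe_le_norm (p n)
    rw [ContinuousMap.add_apply, hval] at this
    exact this
  · show ‖z + xx n‖ ≤ 1 + ‖z‖
    refine (norm_add_le _ _).trans ?_
    have := norm_xx_le n
    linarith

/-- Along ultrafilters finer than `bigFilter` the sequence converges weakly to `vv`. -/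
theorem xx_weak {U : Ultrafilter ℕ} (hU : (U : Filter ℕ) ≤ bigFilter)
    (f : StrongDual ℝ C(K, ℝ)) : Tendsto (fun n => f (xx n)) (U : Filter ℕ) (𝓝 (f vv)) := by
  classical
  refine Tendsto.mono_left ?_ hU
  rw [Metric.tendsto_nhds]
  intro δ hδ
  obtain ⟨N, hN⟩ := exists_nat_ge (2 * ‖f‖ / δ)
  refine ⟨N, fun s hs hk => ?_⟩
  have hbd : ∀ n ∈ s, δ ≤ |f (xx n - vv)| := fun n hn => by
    have h1 := hs n hn
    have h2 : ¬ dist (f (xx n)) (f vv) < δ := h1
    rw [not_lt, Real.dist_eq, ← map_sub] at h2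
    exact h2
  -- signs
  let e : ℕ → ℝ := fun n => if 0 ≤ f (xx n - vv) then 1 else -1
  have he : ∀ n, e n * f (xx n - vv) = |f (xx n - vv)| := fun n => by
    by_cases h : 0 ≤ f (xx n - vv)
    · simp only [e, if_pos h, one_mul, abs_of_nonneg h]
    · simp only [e, if_neg h, neg_one_mul, abs_of_neg (not_le.mp h)]
  have he1 : ∀ n, |e n| = 1 := fun n => by
    by_cases h : 0 ≤ f (xx n - vv)
    · simp only [e, if_pos h, abs_one]
    · simp only [e, if_neg h, abs_neg, abs_one]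
  have hnorm : ‖∑ n ∈ s, e n • (xx n - vv)‖ ≤ 2 := by
    refine (ContinuousMap.norm_le _ zero_le_two).mpr fun p => ?_
    rw [ContinuousMap.sum_apply]
    by_cases hz : ∀ n ∈ s, (e n • (xx n - vv)) p = 0
    · rw [Finset.sum_eq_zero hz, norm_zero]; exact zero_le_two
    · push Not at hz
      obtain ⟨n, hn, hne⟩ := hz
      have hmem : ∀ m ∈ s, (e m • (xx m - vv)) p ≠ 0 →
          ((p.2 (Nat.sqrt m)).1 : ℕ) = m := by
        intro m _ hm
        by_contra hcon
        apply hm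
        show e m * (xx m p - vv p) = 0
        rw [xx_apply, if_neg hcon]
        show e m * (sg p.1 - sg p.1) = 0
        rw [sub_self, mul_zero]
      rw [Finset.sum_eq_single_of_mem n hn]
      · show ‖e n * (xx n p - vv p)‖ ≤ 2
        rw [norm_mul, Real.norm_eq_abs, he1, one_mul]
        refine (norm_sub_le _ _).trans ?_
        have h1 : ‖xx n p‖ = 1 := abs_xx n p
        have h2 : ‖vv p‖ = 1 := abs_sg p.1
        rw [h1, h2]
        norm_num
      · intro m hm hmn
        by_contra hcon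
        have h1 := hmem m hm hcon
        have h2 := hmem n hn hne
        rw [hk m hm n hn] at h1
        exact hmn (h1.symm.trans h2)
  have h1 : (s.card : ℝ) * δ ≤ ∑ n ∈ s, |f (xx n - vv)| := by
    rw [← nsmul_eq_mul]
    exact Finset.card_nsmul_le_sum s _ δ hbd
  have h2 : ∑ n ∈ s, |f (xx n - vv)| = f (∑ n ∈ s, e n • (xx n - vv)) := by
    rw [map_sum]
    refine Finset.sum_congr rfl fun n _ => ?_
    rw [map_smul, smul_eq_mul, he]
  have h3 : f (∑ n ∈ s, e n • (xx n - vv)) ≤ ‖f‖ * 2 :=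
    (le_abs_self _).trans ((f.le_opNorm _).trans
      (mul_le_mul_of_nonneg_left hnorm (norm_nonneg f)))
  have h4 : (s.card : ℝ) ≤ N := by
    refine le_trans ?_ hN
    rw [le_div_iff₀ hδ]
    linarith
  exact_mod_cast h4

/-! ### The result -/

theorem norm_emb_add_le {X : Type} [NormedAddCommGroup X] [NormedSpace ℝ X] {c : ℝ} (hc0 : 0 < c)
    (m u : StrongDual ℝ (ℕ →ᵇ ℝ)) (x : ℕ → X) (hx : ∀ n, ‖x n‖ ≤ 1) (v : X)
    (hu : ∀ f, u (along x hx f) = f v) :
    ‖emb (-((1 - c) • v)) + mlim (c • m + (1 - c) • u) x hx‖ ≤ c * ‖m‖ := by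
  have hmn : 0 ≤ ‖m‖ := norm_nonneg m
  let G : StrongDual ℝ (StrongDual ℝ X) := emb (-((1 - c) • v)) + mlim (c • m + (1 - c) • u) x hx
  show ‖G‖ ≤ c * ‖m‖
  refine ContinuousLinearMap.opNorm_le_bound _ (by positivity) fun f => ?_
  have h1 : G f = c * m (along x hx f) := by
    show f (-((1 - c) • v)) + (c * m (along x hx f) + (1 - c) * u (along x hx f)) = _
    rw [hu, map_neg, map_smul, smul_eq_mul]
    ring
  rw [h1, norm_mul, Real.norm_eq_abs, abs_of_pos hc0, mul_assoc]
  refine mul_le_mul_of_nonneg_left ?_ hc0.le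
  refine (m.le_opNorm _).trans (mul_le_mul_of_nonneg_left ?_ hmn)
  exact (BoundedContinuousFunction.norm_le (norm_nonneg f)).mpr fun n =>
    (f.le_opNorm (x n)).trans (mul_le_of_le_one_right (norm_nonneg f) (hx n))

theorem not_inequality (hI : Inequality) {ε : ℝ} (hε : 0 < ε) {m : StrongDual ℝ (ℕ →ᵇ ℝ)}
    (hm : StrongQ ε m) : False := by
  have := bigFilter_neBot
  let U : Ultrafilter ℕ := Ultrafilter.of bigFilter
  have hU : (U : Filter ℕ) ≤ bigFilter := Ultrafilter.of_le _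
  obtain ⟨u, hu⟩ := exists_ultrafunctional U
  set c : ℝ := 1 / (2 + 2 * ‖m‖) with hc
  have hmn : 0 ≤ ‖m‖ := norm_nonneg m
  have hc0 : 0 < c := by positivity
  have hc1 : c ≤ 1 / 2 := by
    rw [hc]
    exact one_div_le_one_div_of_le two_pos (by linarith)
  have hcm : c * ‖m‖ < 1 / 2 := by
    rw [hc, one_div_mul_eq_div, div_lt_iff₀ (by positivity)]
    linarith
  -- the new measure
  let m' : StrongDual ℝ (ℕ →ᵇ ℝ) := c • m + (1 - c) • u
  have hm'v : ∀ b, m' b = c * m b + (1 - c) * u b := fun b => rfl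
  have hQ : StrongQ (c * ε) m' := by
    refine ⟨⟨fun A => ?_, fun A hA => ?_⟩, fun P hP => ?_⟩
    · have h1 := hm.1.1 A
      have h2 := ultra_nonneg hu A
      rw [hm'v]
      constructor
      · exact add_nonneg (mul_nonneg hc0.le h1.1) (mul_nonneg (by linarith) h2.1)
      · nlinarith [h1.2, h2.2]
    · have h1 := hm.1.2 A hA
      have h2 : u (ind A) = 0 := ultra_compl hu (hU (bigFilter_le_cofinite (by
        rw [Filter.mem_cofinite, compl_compl]; exact hA)))
      rw [hm'v, h1, h2, mul_zero, mul_zero, add_zero]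
    · obtain ⟨A, hA, hA'⟩ := hm.2 P hP
      refine ⟨A, hA, ?_⟩
      rw [hm'v]
      have h1 := mul_le_mul_of_nonneg_left hA' hc0.le
      have h2 : 0 ≤ (1 - c) * u (ind A) := mul_nonneg (by linarith) (ultra_nonneg hu A).1
      linarith
  have key := hI (c * ε) (mul_pos hc0 hε) m' hQ C(K, ℝ) xx norm_xx_le xx_orth (-((1 - c) • vv))
  have hul : ∀ f : StrongDual ℝ C(K, ℝ), u (along xx norm_xx_le f) = f vv := fun f =>
    tendsto_nhds_unique (hu _) (xx_weak hU f)
  have hle : ‖emb (-((1 - c) • vv)) + mlim m' xx norm_xx_le‖ ≤ c * ‖m‖ :=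
    norm_emb_add_le hc0 m u xx norm_xx_le vv hul
  have hz : ‖-((1 - c) • vv)‖ = 1 - c := by
    rw [norm_neg, norm_smul, norm_vv, mul_one, Real.norm_eq_abs, abs_of_nonneg (by linarith)]
  rw [hz] at key
  have h5 : 0 ≤ c * ε * ‖mlim m' xx norm_xx_le‖ := by positivity
  linarith

/-- The inequality of Q1 holds for all data if and only if there is no `ε`-strong `Q`-measure for any
`ε > 0`; in particular it fails as soon as there is a `Q`-point. -/
theorem result :
    (Inequality ↔ ¬ ∃ ε : ℝ, 0 < ε ∧ ∃ m : StrongDual ℝ (ℕ →ᵇ ℝ), StrongQ ε m) ∧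
      ((∃ U : Ultrafilter ℕ, IsQPoint U) → ¬ Inequality) := by
  refine ⟨⟨?_, ?_⟩, ?_⟩
  · rintro hI ⟨ε, hε, m, hm⟩
    exact not_inequality hI hε hm
  · intro h ε hε m hm
    exact absurd ⟨ε, hε, m, hm⟩ h
  · rintro ⟨U, hU, hsel⟩ hI
    obtain ⟨m, hm⟩ := exists_ultrafunctional U
    refine not_inequality hI one_pos (m := m) ⟨⟨ultra_nonneg hm, fun A hA => ?_⟩, fun P hP => ?_⟩
    · exact ultra_compl hm (hU (by rw [Filter.mem_cofinite, compl_compl]; exact hA))
    · obtain ⟨A, hA, hA'⟩ := hsel P hP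
      exact ⟨A, hA', (ultra_mem hm hA).ge⟩

end Pool.Agent.Results.MP_8a0948_an.Equivalence
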